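import Mathlib

set_option autoImplicit false

namespace Pool.Agent.Results.MP_67e79f_co.NoBound

open SimpleGraph

/-- `p` is a simple path whose edge labels, read from its start, are non-decreasing. -/
def Increasing {V : Type} {G : SimpleGraph V} (lam : Sym2 V → ℝ) {x y : V} (p : G.Walk x y) :
    Prop :=
  p.IsPath ∧ (p.edges.map lam).IsChain (· ≤ ·)

/-- No ordered pair of vertices is joined by two distinct increasing paths. -/
def GoodLabeling {V : Type} (G : SimpleGraph V) (lam : Sym2 V → ℝ) : Prop :=
  ∀ (x y : V) (p q : G.Walk x y), Increasing lam p → Increasing lam q → p = q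

def IsGood {V : Type} (G : SimpleGraph V) : Prop := ∃ lam : Sym2 V → ℝ, GoodLabeling G lam

/-- A good labeling taking at most `c` values on the edges of `G` exists. -/
def IsCGood {V : Type} (G : SimpleGraph V) (c : ℕ) : Prop :=
  ∃ lam : Sym2 V → ℝ, GoodLabeling G lam ∧ (lam '' G.edgeSet).ncard ≤ c

/-- `(T, B)` is a tree decomposition of `G`. -/
def IsTreeDecomp {V : Type} {r : ℕ} (G : SimpleGraph V) (T : SimpleGraph (Fin r))
    (B : Fin r → Finset V) : Prop :=
  T.IsTree ∧ (∀ v, ∃ i, v ∈ B i) ∧ (∀ u v, G.Adj u v → ∃ i, u ∈ B i ∧ v ∈ B i) ∧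
    ∀ v, (T.induce {i | v ∈ B i}).Connected

/-- Treewidth: the least `w` such that some tree decomposition has all bags of size `≤ w + 1`. -/
noncomputable def tw {V : Type} (G : SimpleGraph V) : ℕ :=
  sInf {w | ∃ (r : ℕ) (T : SimpleGraph (Fin r)) (B : Fin r → Finset V),
    IsTreeDecomp G T B ∧ ∀ i, (B i).card ≤ w + 1}

inductive W (k : ℕ) : Type
  | u | v | x | y
  | U (i : Fin k)
  | V (i : Fin k)
  deriving DecidableEq, Fintype

variable {k : ℕ}

def rel : W k → W k → Prop
  | .u, .U _ => True
  | .U _, .u => True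
  | .v, .V _ => True
  | .V _, .v => True
  | .U i, .V j => i.val = j.val ∨ i.val = j.val + 1
  | .V j, .U i => i.val = j.val ∨ i.val = j.val + 1
  | .u, .x => True
  | .x, .u => True
  | .x, .v => True
  | .v, .x => True
  | .u, .y => True
  | .y, .u => True
  | .y, .v => True
  | .v, .y => True
  | _, _ => False

def gr (k : ℕ) : SimpleGraph (W k) where
  Adj := rel
  symm := ⟨by
    intro a b h
    cases a <;> cases b <;> simp_all [rel]⟩
  loopless := ⟨by
    intro a
    cases a <;> simp [rel]⟩

def lb : W k → W k → ℕ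
  | .u, .U i => k - i
  | .U i, .u => k - i
  | .v, .V i => i + 1
  | .V i, .v => i + 1
  | .U i, .V j => if i.val = j.val then 0 else k + 1
  | .V j, .U i => if i.val = j.val then 0 else k + 1
  | .x, .v => k + 1
  | .v, .x => k + 1
  | .u, .y => k + 1
  | .y, .u => k + 1
  | _, _ => 0

lemma lb_symm (a b : W k) : lb a b = lb b a := by
  cases a <;> cases b <;> rfl

noncomputable def lam0 : Sym2 (W k) → ℝ :=
  Sym2.lift ⟨fun a b => (lb a b : ℝ), fun a b => by simp only [lb_symm a b]⟩

/-- the end vertices of increasing paths starting with the edge `a → b` -/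
def Re : W k → W k → W k → Prop
  | .u, .U i, .U j => j.val = i.val
  | .u, .U i, .V j => j.val + 1 = i.val
  | .v, .V i, .V j => j.val = i.val
  | .v, .V i, .U j => j.val = i.val + 1
  | .U _, .u, .u => True
  | .U _, .u, .y => True
  | .U i, .u, .U j => j.val < i.val
  | .U i, .u, .V j => j.val + 1 < i.val
  | .V _, .v, .v => True
  | .V _, .v, .x => True
  | .V i, .v, .V j => i.val < j.val
  | .V i, .v, .U j => i.val + 1 < j.val
  | .U i, .V j, .V l => l.val = j.val ∨ (i.val = j.val ∧ i.val ≤ l.val)
  | .U i, .V j, .U l => i.val = j.val ∧ i.val < l.val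
  | .U i, .V j, .v => i.val = j.val
  | .U i, .V j, .x => i.val = j.val
  | .V j, .U i, .U l => l.val = i.val ∨ (i.val = j.val ∧ l.val ≤ i.val)
  | .V j, .U i, .V l => i.val = j.val ∧ l.val < i.val
  | .V j, .U i, .u => i.val = j.val
  | .V j, .U i, .y => i.val = j.val
  | .u, .x, .x => True
  | .u, .x, .v => True
  | .x, .u, .u => True
  | .x, .u, .y => True
  | .x, .u, .U _ => True
  | .x, .u, .V _ => True
  | .x, .v, .v => True
  | .v, .x, .x => True
  | .u, .y, .y => True
  | .y, .u, .u => True
  | .v, .y, .y => True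
  | .v, .y, .u => True
  | .y, .v, .v => True
  | .y, .v, .x => True
  | .y, .v, .V _ => True
  | .y, .v, .U _ => True
  | _, _, _ => False

lemma re_base (a b : W k) (h : rel a b) : Re a b b := by
  cases a <;> cases b <;> simp_all [rel, Re]

lemma re_step (a b c z : W k) (h1 : rel a b) (h2 : rel b c) (hac : a ≠ c)
    (hl : lb a b ≤ lb b c) (h : Re b c z) : Re a b z := by
  cases a <;> cases b <;> simp only [rel] at h1 <;> cases c <;> simp only [rel] at h2 <;>
    cases z <;> simp only [Re] at h ⊢ <;>
    simp only [lb, ne_eq, W.U.injEq, W.V.injEq, Fin.ext_iff, not_true_eq_false] at hl hac <;>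
    (try split_ifs at hl) <;> omega

lemma re_uniq (a b b' z : W k) (h1 : rel a b) (h2 : rel a b') (h : Re a b z) (h' : Re a b' z) :
    b = b' := by
  cases a <;> cases b <;> simp only [rel] at h1 <;> cases b' <;> simp only [rel] at h2 <;>
    cases z <;> simp only [Re] at h h' <;>
    first
      | rfl
      | (simp only [W.U.injEq, W.V.injEq, Fin.ext_iff]; omega)
      | omega

lemma re_walk (z : W k) : ∀ (b : W k) (p : (gr k).Walk b z) (a : W k) (h : (gr k).Adj a b),
    Increasing lam0 (Walk.cons h p) → Re a b z := by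
  intro b p
  induction p with
  | nil =>
    intro a h _
    exact re_base _ _ h
  | @cons b c z h' p ih =>
    intro a h hi
    obtain ⟨hp, hc⟩ := hi
    rw [Walk.cons_isPath_iff] at hp
    simp only [Walk.edges_cons, List.map_cons, List.isChain_cons_cons] at hc
    refine re_step a b c z h h' ?_ ?_ (ih b h' ⟨hp.1, by simpa using hc.2⟩)
    · rintro rfl
      exact hp.2 (by simp)
    · have := hc.1
      simp only [lam0, Sym2.lift_mk] at this
      exact_mod_cast this

lemma inc_tail {V : Type} {G : SimpleGraph V} {lam : Sym2 V → ℝ} {a b z : V} (h : G.Adj a b)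
    (p : G.Walk b z) (hi : Increasing lam (Walk.cons h p)) : Increasing lam p := by
  obtain ⟨hp, hc⟩ := hi
  rw [Walk.cons_isPath_iff] at hp
  refine ⟨hp.1, ?_⟩
  simp only [Walk.edges_cons, List.map_cons] at hc
  exact hc.tail

lemma good0 : GoodLabeling (gr k) lam0 := by
  intro a z p
  induction p with
  | nil =>
    intro q _ hq
    exact (Walk.isPath_iff_nil.mp hq.1).eq_nil.symm
  | @cons a b z h p ih =>
    intro q hp hq
    cases q with
    | nil => exact (Walk.isPath_iff_nil.mp hp.1).eq_nil
    | @cons _ b' _ h' q =>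
      have e := re_uniq a b b' z h h' (re_walk z b p a h hp) (re_walk z b' q a h' hq)
      subst e
      rw [ih q (inc_tail h p hp) (inc_tail h' q hq)]

lemma l22 {V : Type} {G : SimpleGraph V} {lam : Sym2 V → ℝ} (hg : GoodLabeling G lam)
    (a b c d : V) (h1 : G.Adj a b) (h2 : G.Adj b c) (h3 : G.Adj a d) (h4 : G.Adj d c)
    (hac : a ≠ c) (hbd : b ≠ d) : lam s(b, c) < lam s(a, b) ∨ lam s(d, c) < lam s(a, d) := by
  by_contra hc
  push Not at hc
  have := hg a c (Walk.cons h1 (Walk.cons h2 Walk.nil)) (Walk.cons h3 (Walk.cons h4 Walk.nil))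
    ⟨by simp [Walk.cons_isPath_iff, h1.ne, h2.ne, hac], by simp [hc.1]⟩
    ⟨by simp [Walk.cons_isPath_iff, h3.ne, h4.ne, hac], by simp [hc.2]⟩
  have h := congrArg (fun p => p.getVert 1) this
  exact hbd h

lemma l23 {V : Type} {G : SimpleGraph V} {lam : Sym2 V → ℝ} (hg : GoodLabeling G lam)
    (a b c d e : V) (h1 : G.Adj a b) (h2 : G.Adj b c) (h3 : G.Adj a d) (h4 : G.Adj d e)
    (h5 : G.Adj e c) (hac : a ≠ c) (hae : a ≠ e) (hdc : d ≠ c) :
    lam s(b, c) < lam s(a, b) ∨ lam s(d, e) < lam s(a, d) ∨ lam s(e, c) < lam s(d, e) := by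
  by_contra hc
  push Not at hc
  have := hg a c (Walk.cons h1 (Walk.cons h2 Walk.nil))
    (Walk.cons h3 (Walk.cons h4 (Walk.cons h5 Walk.nil)))
    ⟨by simp [Walk.cons_isPath_iff, h1.ne, h2.ne, hac], by simp [hc.1]⟩
    ⟨by simp [Walk.cons_isPath_iff, h3.ne, h4.ne, h5.ne, hac, hae, hdc],
      by simp [hc.2.1, hc.2.2]⟩
  have h := congrArg (fun p => p.length) this
  simp at h

section force

variable {lam : Sym2 (W k) → ℝ} (hg : GoodLabeling (gr k) lam)
include hg

lemma nm (i j : Fin k) (h : i.val = j.val ∨ i.val = j.val + 1) :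
    (lam s(.U i, .V j) < lam s(.u, .U i) ∨ lam s(.v, .V j) < lam s(.U i, .V j)) ∧
    (lam s(.U i, .V j) < lam s(.v, .V j) ∨ lam s(.u, .U i) < lam s(.U i, .V j)) := by
  have g1 := l22 hg .u .x .v .y trivial trivial trivial trivial (by simp) (by simp)
  have g2 := l22 hg .v .x .u .y trivial trivial trivial trivial (by simp) (by simp)
  have a1 := l23 hg .u .x .v (.U i) (.V j) trivial trivial trivial h trivial
    (by simp) (by simp) (by simp)
  have a2 := l23 hg .u .y .v (.U i) (.V j) trivial trivial trivial h trivial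
    (by simp) (by simp) (by simp)
  have b1 := l23 hg .v .x .u (.V j) (.U i) trivial trivial trivial h trivial
    (by simp) (by simp) (by simp)
  have b2 := l23 hg .v .y .u (.V j) (.U i) trivial trivial trivial h trivial
    (by simp) (by simp) (by simp)
  rw [Sym2.eq_swap (a := W.x) (b := W.u), Sym2.eq_swap (a := W.v) (b := W.x),
    Sym2.eq_swap (a := W.y) (b := W.u), Sym2.eq_swap (a := W.v) (b := W.y)] at g2
  rw [Sym2.eq_swap (a := W.V j) (b := W.v)] at a1 a2
  rw [Sym2.eq_swap (a := W.V j) (b := W.U i), Sym2.eq_swap (a := W.U i) (b := W.u)] at b1 b2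
  rw [Sym2.eq_swap (a := W.x) (b := W.u), Sym2.eq_swap (a := W.v) (b := W.x)] at b1
  rw [Sym2.eq_swap (a := W.y) (b := W.u), Sym2.eq_swap (a := W.v) (b := W.y)] at b2
  constructor
  · rcases a1 with a1 | a1
    · rcases a2 with a2 | a2
      · rcases g2 with g | g <;> linarith
      · exact a2
    · exact a1
  · rcases b1 with b1 | b1
    · rcases b2 with b2 | b2
      · rcases g1 with g | g <;> linarith
      · exact b2
    · exact b1

lemma step (i j : Fin k) (h : j.val = i.val + 1) :
    (lam s(.U i, .V i) < lam s(.u, .U i) →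
      lam s(.U j, .V j) < lam s(.u, .U j) ∧ lam s(.u, .U j) < lam s(.u, .U i)) ∧
    (lam s(.u, .U i) < lam s(.U i, .V i) →
      lam s(.u, .U j) < lam s(.U j, .V j) ∧ lam s(.u, .U i) < lam s(.u, .U j)) := by
  have hij : i ≠ j := by
    rintro rfl
    omega
  obtain ⟨n1, n2⟩ := nm hg i i (Or.inl rfl)
  obtain ⟨n3, n4⟩ := nm hg j i (Or.inr h)
  obtain ⟨n5, n6⟩ := nm hg j j (Or.inl rfl)
  have q1 := l22 hg .u (.U i) (.V i) (.U j) trivial (Or.inl rfl) trivial (Or.inr h)
    (by simp) (by simpa using hij)
  have q2 := l22 hg (.V i) (.U i) .u (.U j) (Or.inl rfl) trivial (Or.inr h) trivial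
    (by simp) (by simpa using hij)
  have q3 := l22 hg (.U i) .u (.U j) (.V i) trivial trivial (Or.inl rfl) (Or.inr h)
    (by simpa using hij) (by simp)
  have q4 := l22 hg (.U j) .u (.U i) (.V i) trivial trivial (Or.inr h) (Or.inl rfl)
    (by simpa using hij.symm) (by simp)
  have q5 := l22 hg .v (.V i) (.U j) (.V j) trivial (Or.inr h) trivial (Or.inl rfl)
    (by simp) (by simpa using hij)
  have q6 := l22 hg (.U j) (.V i) .v (.V j) (Or.inr h) trivial (Or.inl rfl) trivial
    (by simp) (by simpa using hij)
  simp only [Sym2.eq_swap (a := W.V i) (b := W.U i), Sym2.eq_swap (a := W.V i) (b := W.U j),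
    Sym2.eq_swap (a := W.V j) (b := W.U j), Sym2.eq_swap (a := W.U i) (b := W.u),
    Sym2.eq_swap (a := W.U j) (b := W.u), Sym2.eq_swap (a := W.V i) (b := W.v),
    Sym2.eq_swap (a := W.V j) (b := W.v)] at q1 q2 q3 q4 q5 q6
  generalize lam s(.U i, .V i) = a at *
  generalize lam s(.U j, .V j) = a' at *
  generalize lam s(.U j, .V i) = b at *
  generalize lam s(.u, .U i) = s at *
  generalize lam s(.u, .U j) = s' at *
  generalize lam s(.v, .V i) = t at *
  generalize lam s(.v, .V j) = t' at *
  constructor
  · intro h0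
    have e1 : s' < b := by rcases q2 with q | q <;> linarith
    have e2 : a < t := by rcases n2 with q | q <;> linarith
    have e3 : t < b := by rcases n3 with q | q <;> linarith
    have e4 : a' < t' := by rcases q5 with q | q <;> linarith
    constructor
    · rcases n5 with q | q <;> linarith
    · rcases q3 with q | q <;> linarith
  · intro h0
    have e1 : b < s' := by rcases q1 with q | q <;> linarith
    have e2 : t < a := by rcases n1 with q | q <;> linarith
    have e3 : b < t := by rcases n4 with q | q <;> linarith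
    have e4 : t' < a' := by rcases q6 with q | q <;> linarith
    constructor
    · rcases n6 with q | q <;> linarith
    · rcases q4 with q | q <;> linarith

end force

lemma spokes_inj {n : ℕ} {lam : Sym2 (W (n + 1)) → ℝ} (hg : GoodLabeling (gr (n + 1)) lam) :
    Function.Injective (fun i : Fin (n + 1) => lam s(.u, .U i)) := by
  obtain ⟨n1, n2⟩ := nm hg 0 0 (Or.inl rfl)
  rcases lt_trichotomy (lam s(.U 0, .V 0)) (lam s(.u, .U 0)) with h | h | h
  · have all : ∀ i : Fin (n + 1), lam s(.U i, .V i) < lam s(.u, .U i) := by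
      intro i
      induction i using Fin.induction with
      | zero => exact h
      | succ i ih => exact ((step hg i.castSucc i.succ (by simp)).1 ih).1
    apply StrictAnti.injective
    rw [Fin.strictAnti_iff_succ_lt]
    intro i
    exact ((step hg i.castSucc i.succ (by simp)).1 (all _)).2
  · rcases n1 with q | q <;> rcases n2 with q' | q' <;> linarith
  · have all : ∀ i : Fin (n + 1), lam s(.u, .U i) < lam s(.U i, .V i) := by
      intro i
      induction i using Fin.induction with
      | zero => exact h
      | succ i ih => exact ((step hg i.castSucc i.succ (by simp)).2 ih).1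
    apply StrictMono.injective
    rw [Fin.strictMono_iff_lt_succ]
    intro i
    exact ((step hg i.castSucc i.succ (by simp)).2 (all _)).2

lemma not_cgood (n : ℕ) : ¬ IsCGood (gr (n + 1)) n := by
  rintro ⟨lam, hg, hc⟩
  have h1 : Set.range (fun i : Fin (n + 1) => lam s(.u, .U i)) ⊆ lam '' (gr (n + 1)).edgeSet := by
    rintro _ ⟨i, rfl⟩
    exact ⟨_, (show (gr (n + 1)).Adj .u (.U i) from trivial), rfl⟩
  have h2 := Set.ncard_le_ncard h1 (Set.toFinite _)
  rw [← Set.image_univ, Set.ncard_image_of_injective _ (spokes_inj hg), Set.ncard_univ] at h2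
  simp at h2
  omega

lemma path_tree (n : ℕ) : (pathGraph (n + 1)).IsTree := by
  refine ⟨pathGraph_connected n, ?_⟩
  have key : ∀ a b : Fin (n + 1), a.val + 1 = b.val → (pathGraph (n + 1)).IsBridge s(a, b) := by
    intro a b hab
    rw [isBridge_iff]
    have : ∀ (c d : Fin (n + 1)) (p : ((pathGraph (n + 1)).deleteEdges {s(a, b)}).Walk c d),
        c.val ≤ a.val → d.val ≤ a.val := by
      intro c d p
      induction p with
      | nil => exact id
      | @cons c e d h p ih =>
        intro hc
        apply ih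
        rw [deleteEdges_adj, pathGraph_adj] at h
        by_contra hlt
        apply h.2
        have e1 : c = a := Fin.ext (by omega)
        have e2 : e = b := Fin.ext (by omega)
        rw [e1, e2]
        rfl
    rintro ⟨p⟩
    have := this a b p le_rfl
    omega
  rw [isAcyclic_iff_forall_adj_isBridge]
  intro a b h
  rw [pathGraph_adj] at h
  rcases h with h | h
  · exact key a b h
  · rw [Sym2.eq_swap]
    exact key b a h

lemma conv_conn (n : ℕ) (S : Set (Fin (n + 1))) (hne : S.Nonempty)
    (hS : ∀ i j l : Fin (n + 1), i ∈ S → l ∈ S → i.val ≤ j.val → j.val ≤ l.val → j ∈ S) :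
    ((pathGraph (n + 1)).induce S).Connected := by
  have key : ∀ (d : ℕ) (a b : S), b.1.val = a.1.val + d →
      ((pathGraph (n + 1)).induce S).Reachable a b := by
    intro d
    induction d with
    | zero =>
      intro a b h
      have : a = b := Subtype.ext (Fin.ext (by omega))
      rw [this]
    | succ d ih =>
      intro a b h
      have hb := b.1.2
      let c : S := ⟨⟨a.1.val + d, by omega⟩, hS a.1 _ b.1 a.2 b.2 (by simp) (by simp; omega)⟩
      refine (ih a c rfl).trans (Adj.reachable ?_)
      show (pathGraph (n + 1)).Adj c.1 b.1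
      rw [pathGraph_adj]
      left
      show a.1.val + d + 1 = b.1.val
      omega
  have : Nonempty S := hne.to_subtype
  refine ⟨fun a b => ?_⟩
  rcases le_total a.1.val b.1.val with h | h
  · exact key (b.1.val - a.1.val) a b (by omega)
  · exact (key (a.1.val - b.1.val) b a (by omega)).symm

def inBag (i : Fin k) : W k → Prop
  | .U j => j.val = i.val ∨ j.val = i.val + 1
  | .V j => j.val = i.val
  | _ => True

open Classical in
noncomputable def bag (i : Fin k) : Finset (W k) := Finset.univ.filter (inBag i)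

lemma mem_bag (i : Fin k) (w : W k) : w ∈ bag i ↔ inBag i w := by simp [bag]

lemma tw_le (n : ℕ) : tw (gr (n + 1)) ≤ 6 := by
  apply Nat.sInf_le
  refine ⟨n + 1, pathGraph (n + 1), bag, ⟨path_tree n, ?_, ?_, ?_⟩, ?_⟩
  · intro w
    simp only [mem_bag]
    cases w with
    | U i => exact ⟨i, Or.inl rfl⟩
    | V i => exact ⟨i, rfl⟩
    | _ => exact ⟨0, trivial⟩
  · intro a b h
    simp only [mem_bag]
    change rel a b at h
    cases a <;> cases b <;> simp only [rel] at h <;>
      first
        | exact ⟨0, trivial, trivial⟩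
        | exact ⟨_, trivial, Or.inl rfl⟩
        | exact ⟨_, Or.inl rfl, trivial⟩
        | exact ⟨_, trivial, rfl⟩
        | exact ⟨_, rfl, trivial⟩
        | exact ⟨_, h, rfl⟩
        | exact ⟨_, rfl, h⟩
  · intro w
    apply conv_conn
    · cases w with
      | U i => exact ⟨i, (mem_bag _ _).mpr (Or.inl rfl)⟩
      | V i => exact ⟨i, (mem_bag _ _).mpr rfl⟩
      | _ => exact ⟨0, (mem_bag _ _).mpr trivial⟩
    · intro i j l hi hl h1 h2
      simp only [Set.mem_ofPred_eq, mem_bag] at hi hl ⊢
      cases w <;> simp only [inBag] at hi hl ⊢ <;> omega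
  · intro i
    have : bag i ⊆ {W.u, W.v, W.x, W.y, W.U i, W.V i, W.U (i + 1)} := by
      intro w hw
      rw [mem_bag] at hw
      cases w with
      | U j =>
        rcases hw with h | h
        · have : j = i := Fin.ext h
          simp [this]
        · have : j = i + 1 := by
            apply Fin.ext
            have := j.2
            rw [Fin.val_add_one_of_lt (by
              rw [Fin.lt_def, Fin.val_last]
              omega)]
            exact h
          simp [this]
      | V j =>
        have : j = i := Fin.ext hw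
        simp [this]
      | _ => simp
    exact (Finset.card_le_card this).trans
      ((Finset.card_insert_le _ _).trans (Nat.succ_le_succ Finset.card_le_six))

theorem result : ¬ ∃ f : ℕ → ℕ, ∀ (V : Type) [Fintype V] (G : SimpleGraph V),
    IsGood G → IsCGood G (f (tw G)) := by
  rintro ⟨f, hf⟩
  let n := (Finset.range 7).sup f
  obtain ⟨lam, h1, h2⟩ := hf (W (n + 1)) (gr (n + 1)) ⟨lam0, good0⟩
  refine not_cgood n ⟨lam, h1, h2.trans ?_⟩
  exact Finset.le_sup (f := f) (Finset.mem_range.mpr (Nat.lt_succ_of_le (tw_le n)))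

end Pool.Agent.Results.MP_67e79f_co.NoBound
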